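import Mathlib

namespace Pool.Agent.H.MP_5acbe8_al

abbrev V (ι : Type) := (ι → ℚ) × (ι → ℚ)

variable {ι : Type}

open Classical in
noncomputable def tau (D : ι → ℚ) (z : V ι) : V ι := if z.2 = 0 then (D * z.1, 0) else z

theorem tau_0 (D : ι → ℚ) {z : V ι} (h : z.2 = 0) : tau D z = (D * z.1, 0) := if_pos h
theorem tau_ne (D : ι → ℚ) {z : V ι} (h : z.2 ≠ 0) : tau D z = z := if_neg h
theorem tau_snd (D : ι → ℚ) (z : V ι) : (tau D z).2 = z.2 := by
  by_cases h : z.2 = 0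
  · rw [tau_0 D h, h]
  · rw [tau_ne D h]
theorem tau_tau {D : ι → ℚ} (hD : D * D = 1) (z : V ι) : tau D (tau D z) = z := by
  by_cases h : z.2 = 0
  · rw [tau_0 D h, tau_0 D rfl, ← mul_assoc, hD, one_mul, ← h]
  · rw [tau_ne D h, tau_ne D h]
theorem tau_smul (D : ι → ℚ) (r : ℚ) (z : V ι) : tau D (r • z) = r • tau D z := by
  by_cases h : z.2 = 0
  · rw [tau_0 D h, tau_0 D (by simp [h])]; simp
  · rcases eq_or_ne r 0 with rfl | k
    · rw [tau_0 D (by simp)]; simp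
    · rw [tau_ne D h, tau_ne D (by simp [h, k])]

def Good (D : ι → ℚ) (C : Set (V ι)) : Prop := ∀ z z', tau D z ∈ C → tau D z' ∈ C → tau D (z + z') ∈ C

def Pj (s : ι → ι) (j : ι) (C : Set (V ι)) : Prop := ∀ u : ι → ℚ, u j = 0 → u (s j) = 0 → (u, (0 : ι → ℚ)) ∈ C

def T (C : Set (V ι)) : Set ι := {j | ∃ z ∈ C, z.2 j ≠ 0}

structure Pre (s : ι → ι) (C : Set (V ι)) : Prop where
  zero : (0 : V ι) ∈ C
  smul : ∀ (r : ℚ), ∀ z ∈ C, r • z ∈ C
  add : ∀ u u' : ι → ℚ, (u, (0 : ι → ℚ)) ∈ C → (u', (0 : ι → ℚ)) ∈ C → (u + u', (0 : ι → ℚ)) ∈ C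
  p : ∀ j ∈ T C, Pj s j C

@[ext] structure A (s : ι → ι) (e : ι → ι → ℚ) where
  C : Set (V ι)
  pre : Pre s C
  good : ∀ j ∈ T C, Good (e j) C

variable {s : ι → ι} {e d : ι → ι → ℚ}

instance : PartialOrder (A s e) := PartialOrder.lift A.C fun _ _ => A.ext

instance : InfSet (A s e) := ⟨fun S => ⟨{z | ∀ w ∈ S, z ∈ w.C},
  ⟨fun w _ => w.pre.zero, fun r z h w k => w.pre.smul r z (h w k), fun u u' h h' w k => w.pre.add u u' (h w k) (h' w k),
    fun j ⟨z, h, h'⟩ u a b w k => w.pre.p j ⟨z, h w k, h'⟩ u a b⟩,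
  fun j ⟨z, h, h'⟩ x y a b w k => w.good j ⟨z, h w k, h'⟩ x y (a w k) (b w k)⟩⟩

instance : CompleteLattice (A s e) := completeLatticeOfInf _ fun S =>
  ⟨fun w k z h => h w k, fun w k z h v i => k i h⟩

theorem le_def {u v : A s e} : u ≤ v ↔ u.C ⊆ v.C := Iff.rfl

theorem mem_inf {u v : A s e} {z : V ι} : z ∈ (u ⊓ v).C ↔ z ∈ u.C ∧ z ∈ v.C := by
  refine ⟨fun h => ⟨(inf_le_left : u ⊓ v ≤ u) h, (inf_le_right : u ⊓ v ≤ v) h⟩, fun h => ?_⟩
  have : sInf {u, v} ≤ u ⊓ v := by simp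
  refine this fun w k => ?_
  rcases k with rfl | rfl
  exacts [h.1, h.2]

theorem T_mono {C C' : Set (V ι)} (h : C ⊆ C') : T C ⊆ T C' := fun _ ⟨z, a, b⟩ => ⟨z, h a, b⟩
theorem Pj.mono {C C' : Set (V ι)} {j : ι} (a : Pj s j C) (h : C ⊆ C') : Pj s j C' := fun u b c => h (a u b c)

def Eqv (D D' : ι → ℚ) (C : Set (V ι)) : Prop := ∀ u : ι → ℚ, (D * u, (0 : ι → ℚ)) ∈ C ↔ (D' * u, (0 : ι → ℚ)) ∈ C

theorem Eqv.tau {D D' : ι → ℚ} {C : Set (V ι)} (h : Eqv D D' C) (z : V ι) : tau D z ∈ C ↔ tau D' z ∈ C := by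
  by_cases k : z.2 = 0
  · rw [tau_0 D k, tau_0 D' k]; exact h _
  · rw [tau_ne D k, tau_ne D' k]

theorem Good.eqv {D D' : ι → ℚ} {C : Set (V ι)} (g : Good D C) (h : Eqv D D' C) : Good D' C := fun z z' a b =>
  (h.tau _).1 (g z z' ((h.tau _).2 a) ((h.tau _).2 b))

theorem Pre.good0 {C : Set (V ι)} (h : Pre s C) (k : ∀ j, j ∉ T C) (D : ι → ℚ) : Good D C := fun z z' a b => by
  have f : ∀ z, tau D z ∈ C → z.2 = 0 := fun z a => funext fun j => by_contra fun i => k j ⟨_, a, by rwa [tau_snd]⟩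
  have a' := f z a
  have b' := f z' b
  rw [tau_0 D a'] at a
  rw [tau_0 D b'] at b
  rw [tau_0 D (by simp [a', b']), Prod.fst_add, mul_add]
  exact h.add _ _ a b

structure Hy (s : ι → ι) (e d : ι → ι → ℚ) : Prop where
  inj : Function.Injective s
  s1 : ∀ k, s k ≠ k
  s2 : ∀ k, s (s k) ≠ k
  ee : ∀ k, e k * e k = 1
  dd : ∀ k, d k * d k = 1
  rel : ∀ l k, k ≠ l → d l k * e k (s k) = e k k * d l (s k)

variable [Fintype ι] [DecidableEq ι]

theorem Pre.cover {C : Set (V ι)} (h : Pre s C) (u : ι → ℚ) (hu : ∀ t, u t ≠ 0 → ∃ j, Pj s j C ∧ t ≠ j ∧ t ≠ s j) :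
    (u, (0 : ι → ℚ)) ∈ C := by
  rw [← Finset.univ_sum_single u]
  refine Finset.sum_induction _ (fun v => (v, (0 : ι → ℚ)) ∈ C) (h.add) h.zero fun t _ => ?_
  by_cases k : u t = 0
  · rw [k, Pi.single_zero]; exact h.zero
  · obtain ⟨j, a, b, c⟩ := hu t k
    exact a _ (Pi.single_eq_of_ne b.symm _) (Pi.single_eq_of_ne c.symm _)

omit [Fintype ι] [DecidableEq ι] in
theorem Pre.eqv {C : Set (V ι)} (h : Pre s C) {D D' : ι → ℚ} (c : ℚ) (hc : c * c = 1)
    (H : ∀ v : ι → ℚ, (∀ t, D' t = c * D t → v t = 0) → (v, (0 : ι → ℚ)) ∈ C) : Eqv D D' C := fun u => by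
  constructor
  · intro k
    have := h.add _ _ (by simpa using h.smul c _ k) (H (D' * u - c • (D * u)) fun t i => by simp [i]; ring)
    simpa using this
  · intro k
    have := h.add _ _ (by simpa using h.smul c _ k) (H (D * u - c • (D' * u)) fun t i => by
      simp only [Pi.sub_apply, Pi.mul_apply, Pi.smul_apply, smul_eq_mul, i]; linear_combination (-(D t * u t)) * hc)
    simpa using this

omit [Fintype ι] [DecidableEq ι] in
theorem Pre.eqv1 {C : Set (V ι)} (h : Pre s C) {D D' : ι → ℚ} (hD : D * D = 1) (hD' : D' * D' = 1) {k : ι} (p : Pj s k C)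
    (r : D k * D' (s k) = D' k * D (s k)) : Eqv D D' C := by
  have a : D k * D k = 1 := congrFun hD k
  have b : D' k * D' k = 1 := congrFun hD' k
  refine h.eqv (D k * D' k) (by linear_combination (D' k * D' k) * a + b) fun v i => p v (i _ ?_) (i _ ?_)
  · linear_combination (-D' k) * a
  · linear_combination D k * r - D' (s k) * a

theorem Pre.eqv2 (H : Hy s e d) {C : Set (V ι)} (h : Pre s C) {D D' : ι → ℚ} (hD : D * D = 1) (hD' : D' * D' = 1) {j k : ι}
    (p : Pj s j C) (q : Pj s k C) (n : j ≠ k) : Eqv D D' C := by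
  obtain ⟨t, ht⟩ : ∃ t, ∀ x, x ≠ t → (x ≠ j ∧ x ≠ s j) ∨ (x ≠ k ∧ x ≠ s k) := by
    have := H.s2 k
    have : s j ≠ s k := fun i => n (H.inj i)
    by_cases i : k = s j
    · exact ⟨k, fun x _ => by have := H.s2 j; grind⟩
    · exact ⟨j, fun x _ => by grind⟩
  have a : D t * D t = 1 := congrFun hD t
  have b : D' t * D' t = 1 := congrFun hD' t
  refine h.eqv (D t * D' t) (by linear_combination (D' t * D' t) * a + b) fun v i => h.cover v fun x y => ?_
  have : x ≠ t := by rintro rfl; exact y (i _ (by linear_combination (-D' x) * a))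
  rcases ht x this with z | z
  exacts [⟨j, p, z⟩, ⟨k, q, z⟩]

theorem good_of (H : Hy s e d) (w : A s e) {l j : ι} (p : Pj s j w.C) (n : j ≠ l) : Good (d l) w.C := by
  by_cases k : ∃ i, i ∈ T w.C
  · obtain ⟨i, k⟩ := k
    refine (w.good i k).eqv ?_
    by_cases a : i = l
    · exact w.pre.eqv2 H (H.ee _) (H.dd _) p (w.pre.p i k) (a ▸ n)
    · exact w.pre.eqv1 (H.ee _) (H.dd _) (w.pre.p i k) (H.rel l i a).symm
  · exact w.pre.good0 (by simpa using k) _

theorem not_good (H : Hy s e d) (w : A s e) {l : ι} (h : ¬ Good (d l) w.C) : l ∈ T w.C ∧ ∀ j, Pj s j w.C → j = l := by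
  have a : ∀ j, Pj s j w.C → j = l := fun j p => by_contra fun n => h (good_of H w p n)
  refine ⟨by_contra fun k => h (w.pre.good0 (fun j i => k ?_) _), a⟩
  exact a j (w.pre.p j i) ▸ i

/-- element given by a subspace whose lower part is invariant under diagonal maps -/
def ofInv (S : Submodule ℚ (V ι)) (h : ∀ j ∈ T (S : Set (V ι)), Pj s j S)
    (k : (∃ j, j ∈ T (S : Set (V ι))) → ∀ (D u : ι → ℚ), (u, (0 : ι → ℚ)) ∈ S → (D * u, (0 : ι → ℚ)) ∈ S) (H : ∀ k, e k * e k = 1) : A s e where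
  C := S
  pre := ⟨S.zero_mem, fun r _ h => S.smul_mem r h, fun u u' a b => by simpa using S.add_mem a b, h⟩
  good := fun j i z z' a b => by
    have f : ∀ z, tau (e j) z ∈ S ↔ z ∈ S := fun z => by
      by_cases c : z.2 = 0
      · rw [tau_0 _ c]
        refine ⟨fun g => ?_, fun g => k ⟨j, i⟩ _ _ (by rwa [← c])⟩
        have := k ⟨j, i⟩ (e j) _ g
        rwa [← mul_assoc, H, one_mul, ← c] at this
      · rw [tau_ne _ c]
    exact (f _).2 (S.add_mem ((f _).1 a) ((f _).1 b))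

theorem T_tau {D : ι → ℚ} (hD : D * D = 1) (C : Set (V ι)) : T {z | tau D z ∈ C} = T C := by
  ext j
  refine ⟨fun ⟨z, a, b⟩ => ⟨_, a, by rwa [tau_snd]⟩, fun ⟨z, a, b⟩ => ⟨tau D z, ?_, by rwa [tau_snd]⟩⟩
  show tau D (tau D z) ∈ C
  rwa [tau_tau hD]

omit [Fintype ι] [DecidableEq ι] in
theorem Pj_tau {D : ι → ℚ} {C : Set (V ι)} {j : ι} (h : Pj s j C) : Pj s j {z | tau D z ∈ C} := fun u a b => by
  show tau D _ ∈ C
  rw [tau_0 D rfl]
  exact h _ (by simp [a]) (by simp [b])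

/-- element given by a subspace in gauge `l` -/
def ofG (H : Hy s e d) (l : ι) (S : Submodule ℚ (V ι)) (h : ∀ j ∈ T (S : Set (V ι)), Pj s j S)
    (k : l ∈ T (S : Set (V ι)) → ∃ j, j ≠ l ∧ Pj s j S) : A s e :=
  have pre : Pre s {z | tau (d l) z ∈ S} := ⟨by
      show tau _ _ ∈ S
      rw [tau_0 _ rfl, Prod.fst_zero, mul_zero]; exact S.zero_mem, fun r z a => by
      show tau _ _ ∈ S
      rw [tau_smul]; exact S.smul_mem r a, fun u u' a b => by
      change tau _ _ ∈ S at a b ⊢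
      rw [tau_0 _ rfl] at a b ⊢
      simpa [mul_add] using S.add_mem a b, fun j i => Pj_tau (h j (T_tau (H.dd l) _ ▸ i))⟩
  { C := {z | tau (d l) z ∈ S}
    pre := pre
    good := fun j i => by
      have g : Good (d l) {z | tau (d l) z ∈ S} := fun z z' a b => by
        change tau _ _ ∈ S at a b ⊢
        rw [tau_tau (H.dd l)] at a b ⊢
        exact S.add_mem a b
      refine g.eqv ?_
      by_cases a : j = l
      · obtain ⟨x, y, z⟩ := k (T_tau (H.dd l) _ ▸ a ▸ i)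
        exact pre.eqv2 H (H.dd _) (H.ee _) (Pj_tau z) (pre.p j i) (a ▸ y)
      · exact pre.eqv1 (H.dd _) (H.ee _) (pre.p j i) (H.rel l j a) }

/-- the subspace of a good element -/
def sub (D : ι → ℚ) (w : A s e) (g : Good D w.C) : Submodule ℚ (V ι) where
  carrier := {z | tau D z ∈ w.C}
  zero_mem' := by
    show tau _ _ ∈ w.C
    rw [tau_0 _ rfl, Prod.fst_zero, mul_zero]; exact w.pre.zero
  add_mem' := fun a b => g _ _ a b
  smul_mem' := fun r z a => by
    show tau _ _ ∈ w.C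
    rw [tau_smul]; exact w.pre.smul r _ a

/-- elements with prescribed vanishing upper coordinates -/
def up (H : Hy s e d) (Z : Set ι) : A s e := ofInv
  { carrier := {z | ∀ j ∈ Z, z.2 j = 0}
    zero_mem' := fun _ _ => rfl
    add_mem' := fun a b j i => by simp [a j i, b j i]
    smul_mem' := fun r z a j i => by simp [a j i] } (fun _ _ _ _ _ _ _ => rfl) (fun _ _ _ _ _ _ => rfl) H.ee

theorem le_up (H : Hy s e d) {Z : Set ι} {w : A s e} : w ≤ up H Z ↔ ∀ j ∈ Z, j ∉ T w.C :=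
  ⟨fun h j i ⟨_, a, b⟩ => b (h a j i), fun h z a j i => by_contra fun b => h j i ⟨z, a, b⟩⟩

theorem T_sup (H : Hy s e d) {u v : A s e} {j : ι} (h : j ∈ T (u ⊔ v).C) : j ∈ T u.C ∨ j ∈ T v.C := by
  by_contra k
  push Not at k
  exact (le_up H (Z := {j})).1 (sup_le ((le_up H).2 (by simpa using k.1)) ((le_up H).2 (by simpa using k.2))) j rfl h

def Nice (l : ι) (u v : A s e) : Prop := T u.C ⊆ {l} → T v.C ⊆ {l} → l ∉ T u.C ∧ l ∉ T v.C

theorem Nice.good (H : Hy s e d) {l : ι} {u v : A s e} (h : Nice l u v) : Good (d l) (u ⊔ v).C := by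
  by_contra k
  obtain ⟨a, b⟩ := not_good H _ k
  have := h (fun j i => b j ((u.pre.p j i).mono (le_sup_left : u ≤ u ⊔ v))) (fun j i => b j ((v.pre.p j i).mono (le_sup_right : v ≤ u ⊔ v)))
  rcases T_sup H a with c | c
  exacts [this.1 c, this.2 c]

theorem Nice.split (H : Hy s e d) {l : ι} {u v : A s e} (h : Nice l u v) (gu : Good (d l) u.C) (gv : Good (d l) v.C) {z : V ι}
    (hz : tau (d l) z ∈ (u ⊔ v).C) : ∃ x y, tau (d l) x ∈ u.C ∧ tau (d l) y ∈ v.C ∧ z = x + y := by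
  let S := sub (d l) u gu ⊔ sub (d l) v gv
  have t : ∀ j ∈ T (S : Set (V ι)), j ∈ T u.C ∨ j ∈ T v.C := by
    rintro j ⟨z, a, b⟩
    obtain ⟨x, c, y, f, rfl⟩ := Submodule.mem_sup.1 a
    by_cases g : x.2 j = 0
    · exact .inr ⟨_, f, by rw [tau_snd]; simpa [g] using b⟩
    · exact .inl ⟨_, c, by rwa [tau_snd]⟩
  have p : ∀ j, j ∈ T u.C ∨ j ∈ T v.C → Pj s j S := by
    rintro j (a | a)
    · exact (Pj_tau (u.pre.p j a)).mono (le_sup_left : sub (d l) u gu ≤ S)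
    · exact (Pj_tau (v.pre.p j a)).mono (le_sup_right : sub (d l) v gv ≤ S)
  have : u ⊔ v ≤ ofG H l S (fun j i => p j (t j i)) fun i => by
      by_contra k
      push Not at k
      have := h (fun j a => by_contra fun b => k j b (p j (.inl a))) (fun j a => by_contra fun b => k j b (p j (.inr a)))
      rcases t l i with c | c
      exacts [this.1 c, this.2 c] := by
    refine sup_le (fun x a => ?_) fun x a => ?_
    · refine (le_sup_left : sub (d l) u gu ≤ S) ?_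
      show tau _ (tau _ _) ∈ u.C
      rwa [tau_tau (H.dd l)]
    · refine (le_sup_right : sub (d l) v gv ≤ S) ?_
      show tau _ (tau _ _) ∈ v.C
      rwa [tau_tau (H.dd l)]
  have q : tau _ (tau _ z) ∈ S := this hz
  rw [tau_tau (H.dd l)] at q
  obtain ⟨x, c, y, f, rfl⟩ := Submodule.mem_sup.1 q
  exact ⟨x, y, c, f, rfl⟩

end Pool.Agent.H.MP_5acbe8_al
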