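import Mathlib
import Pool.Agent.H.MP_5acbe8_al.A

namespace Pool.Agent.H.MP_5acbe8_al

variable {ι : Type} {s : ι → ι} {e d : ι → ι → ℚ} [Fintype ι] [DecidableEq ι]

def Gen (x : A s e) (z : V ι) : Prop := z ∈ x.C ∧ (∀ w : A s e, z ∈ w.C → x ≤ w) ∧ T x.C = {j | z.2 j ≠ 0}

def Cy (d : ι → ι → ℚ) (x : A s e) : Prop := (∀ l, Good (d l) x.C) ∧ ∃ z, Gen x z

omit [Fintype ι] [DecidableEq ι] in
theorem good_inv (S : Submodule ℚ (V ι)) (k : ∀ (D u : ι → ℚ), (u, (0 : ι → ℚ)) ∈ S → (D * u, (0 : ι → ℚ)) ∈ S) {D : ι → ℚ} (H : D * D = 1) :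
    Good D S := fun z z' a b => by
  have f : ∀ z, tau D z ∈ S ↔ z ∈ S := fun z => by
    by_cases c : z.2 = 0
    · rw [tau_0 _ c]
      refine ⟨fun g => ?_, fun g => k _ _ (by rwa [← c])⟩
      have := k D _ g
      rwa [← mul_assoc, H, one_mul, ← c] at this
    · rw [tau_ne _ c]
  exact (f _).2 (S.add_mem ((f _).1 a) ((f _).1 b))

theorem exists_gen (H : Hy s e d) (z : V ι) : ∃ x : A s e, Gen x z ∧ Cy d x := by
  suffices ∃ x : A s e, Gen x z ∧ ∀ l, Good (d l) x.C from let ⟨x, a, b⟩ := this; ⟨x, a, b, z, a⟩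
  by_cases h : z.2 = 0
  · have t : ∀ j, j ∉ T (Submodule.span ℚ {z} : Set (V ι)) := by
      rintro j ⟨w, a, b⟩
      obtain ⟨r, rfl⟩ := Submodule.mem_span_singleton.1 a
      simp [h] at b
    refine ⟨ofInv (Submodule.span ℚ {z}) (fun j i => (t j i).elim) (fun ⟨j, i⟩ => (t j i).elim) H.ee,
      ⟨Submodule.mem_span_singleton_self z, fun w a y b => ?_, ?_⟩, fun l => (A.pre _).good0 t _⟩
    · obtain ⟨r, rfl⟩ := Submodule.mem_span_singleton.1 b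
      exact w.pre.smul r z a
    · ext j; exact ⟨fun i => (t j i).elim, fun i => (i (by simp [h])).elim⟩
  · let S : Submodule ℚ (V ι) :=
      { carrier := {w | ∃ r : ℚ, w.2 = r • z.2 ∧ ∀ t, (∀ j, z.2 j ≠ 0 → t = j ∨ t = s j) → w.1 t = r * z.1 t}
        zero_mem' := ⟨0, by simp, by simp⟩
        add_mem' := fun ⟨r, a, b⟩ ⟨r', a', b'⟩ => ⟨r + r', by simp [a, a', add_smul], fun t i => by simp [b t i, b' t i, add_mul]⟩
        smul_mem' := fun c w ⟨r, a, b⟩ => ⟨c * r, by simp [a, mul_smul], fun t i => by simp [b t i, mul_assoc]⟩ }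
    have t : T (S : Set (V ι)) = {j | z.2 j ≠ 0} := by
      ext j
      refine ⟨?_, fun i => ⟨z, ⟨1, by simp, by simp⟩, i⟩⟩
      rintro ⟨w, ⟨r, a, -⟩, b⟩ c
      simp [a, c] at b
    have k : ∀ (D u : ι → ℚ), (u, (0 : ι → ℚ)) ∈ S → (D * u, (0 : ι → ℚ)) ∈ S := by
      rintro D u ⟨r, a, b⟩
      have : r = 0 := by simpa [h] using a.symm
      exact ⟨0, by simp, fun t i => by simpa [this] using .inr (by simpa [this] using b t i)⟩
    refine ⟨ofInv S (fun j i u a b => ⟨0, by simp, fun x y => ?_⟩) (fun _ => k) H.ee, ⟨⟨1, by simp, by simp⟩, ?_, t⟩,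
      fun l => good_inv S k (H.dd l)⟩
    · rcases y j (by rwa [t] at i) with rfl | rfl <;> simpa
    · rintro w a y ⟨r, b, c⟩
      have f : ∀ D : ι → ℚ, (D * (y.1 - r • z.1), (0 : ι → ℚ)) ∈ w.C := fun D => w.pre.cover _ fun x i => by
        by_contra g
        push Not at g
        have := c x fun j q => by
          have := g j (w.pre.p j ⟨z, a, q⟩)
          tauto
        exact i (by simp [this])
      have q : y = r • z + (y.1 - r • z.1, 0) := Prod.ext (by simp) (by simp [b])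
      rcases eq_or_ne r 0 with rfl | g
      · rw [q]; simpa using f 1
      · obtain ⟨j, i⟩ := Function.ne_iff.1 h
        have := w.good j ⟨z, a, i⟩ (r • z) (y.1 - r • z.1, 0) (by rw [tau_ne _ (by simp [g, h])]; exact w.pre.smul r z a)
          (by rw [tau_0 _ rfl]; exact f _)
        rwa [← q, tau_ne _ (by simp [b, g, h])] at this

def Tri (P X Y : Set ι) : Prop := ∀ j, (j ∈ P → j ∈ X ∨ j ∈ Y) ∧ (j ∈ X → j ∈ P ∨ j ∈ Y) ∧ (j ∈ Y → j ∈ P ∨ j ∈ X)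

theorem step (H : Hy s e d) {l : ι} {p u v : A s e} (hp : Cy d p) (le : p ≤ u ⊔ v) (h : Nice l u v) (gu : Good (d l) u.C)
    (gv : Good (d l) v.C) : ∃ x y, x ≤ u ∧ y ≤ v ∧ Cy d x ∧ Cy d y ∧ Tri (T p.C) (T x.C) (T y.C) ∧
      ∀ w : A s e, Good (d l) w.C → x ≤ w → y ≤ w → p ≤ w := by
  obtain ⟨-, z, a, b, c⟩ := hp
  obtain ⟨ξ, η, f, g, i⟩ := h.split H gu gv (z := tau (d l) z) (by rw [tau_tau (H.dd l)]; exact le a)
  obtain ⟨x, ⟨x1, x2, x3⟩, x4⟩ := exists_gen H (tau (d l) ξ)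
  obtain ⟨y, ⟨y1, y2, y3⟩, y4⟩ := exists_gen H (tau (d l) η)
  refine ⟨x, y, x2 u f, y2 v g, x4, y4, fun j => ?_, fun w k m n => b w ?_⟩
  · have : z.2 j = ξ.2 j + η.2 j := by rw [← tau_snd (d l) z, i]; rfl
    simp only [c, x3, y3, tau_snd, Set.mem_setOf_eq]
    grind
  · have := k ξ η (m x1) (n y1)
    rwa [← i, tau_tau (H.dd l)] at this

theorem split (H : Hy s e d) [Nonempty ι] {p u v : A s e} (hp : Cy d p) (le : p ≤ u ⊔ v) :
    ∃ x y, x ≤ u ∧ y ≤ v ∧ Cy d x ∧ Cy d y ∧ Tri (T p.C) (T x.C) (T y.C) ∧ p ≤ x ⊔ y := by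
  obtain ⟨l, hu, hv⟩ : ∃ l, T u.C ≠ {l} ∧ T v.C ≠ {l} := by
    obtain ⟨k⟩ := ‹Nonempty ι›
    by_contra g
    push Not at g
    have a := H.s1 k
    have b := H.s2 k
    have c := H.s1 (s k)
    have f : ∀ {X : Set ι} {i j : ι}, X = {i} → X = {j} → i = j := fun a b => Set.singleton_injective (a.symm.trans b)
    have g1 := g k
    have g2 := g (s k)
    have g3 := g (s (s k))
    by_cases h1 : T u.C = {k} <;> by_cases h2 : T u.C = {s k} <;> by_cases h3 : T u.C = {s (s k)} <;> first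
      | exact a (f h2 h1) | exact b (f h3 h1) | exact c (f h3 h2) | exact a (f (g2 h2) (g1 h1)) | exact b (f (g3 h3) (g1 h1))
      | exact c (f (g3 h3) (g2 h2))
  have ng : ∀ (w : A s e) l, T w.C ≠ {l} → Good (d l) w.C := fun w l h => by_contra fun k =>
    h (Set.eq_singleton_iff_unique_mem.2 ⟨(not_good H w k).1, fun j i => (not_good H w k).2 j (w.pre.p j i)⟩)
  have nn : Nice l u v := fun a b => ⟨fun c => hu (a.antisymm (by simpa)), fun c => hv (b.antisymm (by simpa))⟩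
  obtain ⟨x, y, a, b, c, f, g, i⟩ := step H hp le nn (ng u l hu) (ng v l hv)
  by_cases k : Nice l x y
  · exact ⟨x, y, a, b, c, f, g, i _ (k.good H) le_sup_left le_sup_right⟩
  simp only [Nice, Classical.not_imp] at k
  obtain ⟨k1, k2, k3⟩ := k
  have tu : ∀ w : A s e, T (w ⊓ up H {j | j ≠ l}).C ⊆ {l} := fun w j m => by_contra fun n =>
    (le_up H).1 (inf_le_right : w ⊓ up H {j | j ≠ l} ≤ _) j n m
  have pu : ∀ (w : A s e) j, j ∈ T w.C → Pj s j (w ⊓ up H {j | j ≠ l}).C := fun w j m z n o =>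
    mem_inf.2 ⟨w.pre.p j m z n o, fun _ _ => rfl⟩
  have le' : p ≤ (u ⊓ up H {j | j ≠ l}) ⊔ (v ⊓ up H {j | j ≠ l}) := by
    refine i _ ?_ (le_sup_of_le_left (le_inf a ((le_up H).2 fun j m n => m (k1 n)))) (le_sup_of_le_right (le_inf b ((le_up H).2 fun j m n => m (k2 n))))
    by_contra m
    have := nn (fun j n => (not_good H _ m).2 j ((pu u j n).mono (le_sup_left : u ⊓ up H {j | j ≠ l} ≤ _)))
      (fun j n => (not_good H _ m).2 j ((pu v j n).mono (le_sup_right : v ⊓ up H {j | j ≠ l} ≤ _)))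
    exact k3 ⟨fun n => this.1 (T_mono a n), fun n => this.2 (T_mono b n)⟩
  have o : ∀ w : A s e, T w.C ⊆ {l} → s l ∉ T w.C := fun w m n => H.s1 l (m n)
  obtain ⟨x, y, a, b, c, f, g, i⟩ := step H (l := s l) hp le' (fun _ _ => ⟨o _ (tu u), o _ (tu v)⟩)
    (by_contra fun m => o _ (tu u) (not_good H _ m).1) (by_contra fun m => o _ (tu v) (not_good H _ m).1)
  exact ⟨x, y, a.trans inf_le_left, b.trans inf_le_left, c, f, g, i _ (Nice.good H fun _ _ =>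
    ⟨o _ ((T_mono a).trans (tu u)), o _ ((T_mono b).trans (tu v))⟩) le_sup_left le_sup_right⟩

theorem chase (H : Hy s e d) {l : ι} {n : ℕ} (hn : 1 ≤ n) {p S : A s e} {x y : ℕ → A s e} (hp : Cy d p)
    (hx : ∀ i, 1 ≤ i → i ≤ n → Cy d (x i)) (hy : ∀ i, 1 ≤ i → i ≤ n → Cy d (y i)) (h1 : ∀ i, 1 ≤ i → i < n → p ≤ x i ⊔ y i)
    (h2 : x n ≤ p ⊔ y n) (h3 : ∀ i, 1 ≤ i → i < n → (x i ⊔ x (i + 1)) ⊓ (y i ⊔ y (i + 1)) ≤ S) (gS : Good (d l) S.C)
    (n1 : ∀ i, 1 ≤ i → i < n → Nice l (x i) (y i)) (n2 : Nice l p (y n)) (n3 : ∀ i, 1 ≤ i → i < n → Nice l (x i) (x (i + 1)))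
    (n4 : ∀ i, 1 ≤ i → i < n → Nice l (y i) (y (i + 1))) (n5 : Nice l (y 1) (y n)) (n6 : Nice l (x 1) (x n)) :
    x n ≤ x 1 ⊔ (S ⊓ (y 1 ⊔ y n)) := by
  obtain ⟨-, z, a, b, c⟩ := hx n hn le_rfl
  obtain ⟨q, η', f, g, k⟩ := n2.split H (hp.1 l) ((hy n hn le_rfl).1 l) (z := tau (d l) z) (by rw [tau_tau (H.dd l)]; exact h2 a)
  have ng : ∀ (w : A s e) z, tau (d l) z ∈ w.C → tau (d l) (-z) ∈ w.C := fun w z h => by
    rw [← neg_one_smul ℚ z, tau_smul]; exact w.pre.smul _ _ h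
  have : ∀ i, ∃ ξ η : V ι, 1 ≤ i → i ≤ n → tau (d l) ξ ∈ (x i).C ∧ tau (d l) η ∈ (y i).C ∧ q = ξ - η ∧ (i = n → ξ = tau (d l) z) := fun i => by
    by_cases m : 1 ≤ i ∧ i < n
    · obtain ⟨ξ, η, r, t, u⟩ := (n1 i m.1 m.2).split H ((hx i m.1 m.2.le).1 l) ((hy i m.1 m.2.le).1 l) (h1 i m.1 m.2 f)
      exact ⟨ξ, -η, fun _ _ => ⟨r, ng _ _ t, by simp [u], fun o => by omega⟩⟩
    · refine ⟨tau (d l) z, η', fun r t => ?_⟩
      obtain rfl : i = n := by omega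
      exact ⟨by rwa [tau_tau (H.dd l)], g, by simp [k], fun _ => rfl⟩
  choose ξ η m using this
  have sb : ∀ {u v : A s e} {a b : V ι}, Nice l u v → tau (d l) a ∈ u.C → tau (d l) b ∈ v.C → tau (d l) (a - b) ∈ (u ⊔ v).C :=
    fun {u v a b} h i j => by
      rw [sub_eq_add_neg]
      exact h.good H _ _ ((le_sup_left : u ≤ u ⊔ v) i) (ng _ _ ((le_sup_right : v ≤ u ⊔ v) j))
  have eq : ∀ i j, 1 ≤ i → i ≤ n → 1 ≤ j → j ≤ n → ξ i - ξ j = η i - η j := fun i j a b c f => by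
    have := (m i a b).2.2.1.symm.trans (m j c f).2.2.1
    linear_combination (exp := 1) this
  have key : ∀ k, 1 ≤ k → k ≤ n → tau (d l) (ξ 1 - ξ k) ∈ S.C := fun k i => by
    induction k, i using Nat.le_induction with
    | base => intro _; rw [sub_self, tau_0 _ rfl, Prod.fst_zero, mul_zero]; exact S.pre.zero
    | succ k i ih =>
      intro j
      have := gS _ (ξ k - ξ (k + 1)) (ih (by omega)) (h3 k i j (mem_inf.2 ⟨sb (n3 k i j) (m k i (by omega)).1 (m (k + 1) (by omega) j).1, by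
        rw [eq k (k + 1) i (by omega) (by omega) j]; exact sb (n4 k i j) (m k i (by omega)).2.1 (m (k + 1) (by omega) j).2.1⟩))
      rwa [sub_add_sub_cancel] at this
  have dm : tau (d l) (ξ 1 - ξ n) ∈ (x 1 ⊔ (S ⊓ (y 1 ⊔ y n))).C := (le_sup_right : _ ≤ x 1 ⊔ (S ⊓ (y 1 ⊔ y n))) (mem_inf.2 ⟨key n hn le_rfl, by
    rw [eq 1 n le_rfl hn hn le_rfl]; exact sb n5 (m 1 le_rfl hn).2.1 (m n hn le_rfl).2.1⟩)
  have d1 : tau (d l) (ξ 1) ∈ (x 1 ⊔ (S ⊓ (y 1 ⊔ y n))).C := (le_sup_left : _ ≤ x 1 ⊔ (S ⊓ (y 1 ⊔ y n))) (m 1 le_rfl hn).1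
  have zz : z = tau (d l) (ξ 1 + -(ξ 1 - ξ n)) := by rw [neg_sub, add_sub_cancel, (m n hn le_rfl).2.2.2 rfl, tau_tau (H.dd l)]
  refine b _ ?_
  by_cases gw : Good (d l) (x 1 ⊔ (S ⊓ (y 1 ⊔ y n))).C
  · rw [zz]; exact gw _ _ d1 (ng _ _ dm)
  have tw : T (x 1 ⊔ (S ⊓ (y 1 ⊔ y n))).C ⊆ {l} := fun j i => (not_good H _ gw).2 j ((A.pre _).p j i)
  have z2 : z.2 = (ξ n).2 := by rw [(m n hn le_rfl).2.2.2 rfl, tau_snd]
  have t1 : T (x 1).C ⊆ {l} := (T_mono (le_sup_left : _ ≤ x 1 ⊔ (S ⊓ (y 1 ⊔ y n)))).trans tw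
  have tn : T (x n).C ⊆ {l} := fun j i => by
    rw [c, Set.mem_setOf_eq, z2] at i
    by_cases o : (ξ 1).2 j = 0
    · exact tw ⟨_, dm, by rw [tau_snd]; simpa [o] using i⟩
    · exact tw ⟨_, d1, by rwa [tau_snd]⟩
  obtain ⟨u1, un⟩ := n6 t1 tn
  have v1 : (ξ 1).2 = 0 := funext fun j => by_contra fun o => by
    have : j ∈ T (x 1).C := ⟨_, (m 1 le_rfl hn).1, by rwa [tau_snd]⟩
    exact u1 (t1 this ▸ this)
  have vn : (ξ n).2 = 0 := funext fun j => by_contra fun o => by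
    have : j ∈ T (x n).C := by rw [c, Set.mem_setOf_eq, z2]; exact o
    exact un (tn this ▸ this)
  have dm' := ng _ _ dm
  rw [tau_0 _ (by simp [v1, vn])] at dm'
  rw [tau_0 _ v1] at d1
  rw [zz, tau_0 _ (by simp [vn]), Prod.fst_add, mul_add]
  exact (A.pre _).add _ _ d1 dm'

end Pool.Agent.H.MP_5acbe8_al
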