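import Mathlib
import Pool.Agent.H.MP_5acbe8_al.B

namespace Pool.Agent.H.MP_5acbe8_al

variable {ι : Type} {s : ι → ι} {e d : ι → ι → ℚ} [Fintype ι] [DecidableEq ι]

theorem full2 (H : Hy s e d) (w : A s e) {j k : ι} (a : Pj s j w.C) (b : Pj s k w.C) (h1 : j ≠ k) (h2 : k ≠ s j) (h3 : j ≠ s k) (m : ι) :
    Pj s m w.C := fun u _ _ => w.pre.cover u fun t _ => by
  have : s j ≠ s k := fun i => h1 (H.inj i)
  by_cases c : t ≠ j ∧ t ≠ s j
  · exact ⟨j, a, c⟩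
  · exact ⟨k, b, by grind⟩

theorem full3 (H : Hy s e d) (w : A s e) {j k o : ι} (a : Pj s j w.C) (b : Pj s k w.C) (c : Pj s o w.C) (h1 : j ≠ k) (h2 : k ≠ o) (h3 : j ≠ o)
    (m : ι) : Pj s m w.C := fun u _ _ => w.pre.cover u fun t _ => by
  have : s j ≠ s k := fun i => h1 (H.inj i)
  have : s k ≠ s o := fun i => h2 (H.inj i)
  have : s j ≠ s o := fun i => h3 (H.inj i)
  by_cases f : t ≠ j ∧ t ≠ s j
  · exact ⟨j, a, f⟩
  by_cases g : t ≠ k ∧ t ≠ s k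
  · exact ⟨k, b, g⟩
  · exact ⟨o, c, by grind⟩

omit [Fintype ι] [DecidableEq ι] in
theorem nice_of {l : ι} {u v : A s e} (hu : T u.C ≠ {l}) (hv : T v.C ≠ {l}) : Nice l u v :=
  fun a b => ⟨fun c => hu (a.antisymm (by simpa)), fun c => hv (b.antisymm (by simpa))⟩

omit [Fintype ι] [DecidableEq ι] in
theorem pj_inf {u v : A s e} {j : ι} (a : Pj s j u.C) (b : Pj s j v.C) : Pj s j (u ⊓ v).C := fun z c f => mem_inf.2 ⟨a z c f, b z c f⟩

omit [Fintype ι] [DecidableEq ι] in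
theorem pl {u v : A s e} {j : ι} (a : Pj s j u.C) : Pj s j (u ⊔ v).C := a.mono (le_sup_left : u ≤ u ⊔ v)
omit [Fintype ι] [DecidableEq ι] in
theorem pr {u v : A s e} {j : ι} (a : Pj s j v.C) : Pj s j (u ⊔ v).C := a.mono (le_sup_right : v ≤ u ⊔ v)

theorem pickA (H : Hy s e d) {n : ℕ} (hn : 2 ≤ n) (s3 : 3 ≤ n → ∀ k, s (s (s k)) ≠ k) {p S : A s e} {x y : ℕ → A s e}
    (tr : ∀ i, 1 ≤ i → i ≤ n → Tri (T p.C) (T (x i).C) (T (y i).C)) (h3 : ∀ i, 1 ≤ i → i < n → (x i ⊔ x (i + 1)) ⊓ (y i ⊔ y (i + 1)) ≤ S)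
    (h4 : ∀ w, (∀ i, 1 ≤ i → i < n → (x i ⊔ x (i + 1)) ⊓ (y i ⊔ y (i + 1)) ≤ w) → S ≤ w) {l : ι}
    (hl : ∀ i, 1 ≤ i → i ≤ n → T (x i).C ≠ {l} ∧ T (y i).C ≠ {l}) :
    ∃ l, (∀ i, 1 ≤ i → i ≤ n → T (x i).C ≠ {l} ∧ T (y i).C ≠ {l}) ∧ Good (d l) S.C := by
  by_cases g : Good (d l) S.C
  · exact ⟨l, hl, g⟩
  obtain ⟨a, b⟩ := not_good H S g
  rcases hn.eq_or_lt with rfl | hn
  · have : S = (x 1 ⊔ x 2) ⊓ (y 1 ⊔ y 2) := (h4 _ fun i j k => by obtain rfl : i = 1 := by omega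
                                                                  rfl).antisymm (h3 1 le_rfl (by omega))
    refine (g fun z z' i j => ?_).elim
    rw [this, mem_inf] at i j ⊢
    exact ⟨(nice_of (hl 1 le_rfl (by omega)).1 (hl 2 (by omega) le_rfl).1).good H _ _ i.1 j.1,
      (nice_of (hl 1 le_rfl (by omega)).2 (hl 2 (by omega) le_rfl).2).good H _ _ i.2 j.2⟩
  have nb : ∀ i j, 1 ≤ i → i < n → Pj s j (x i ⊔ x (i + 1)).C → Pj s j (y i ⊔ y (i + 1)).C → j = l := fun i j c f g k =>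
    b j ((pj_inf g k).mono (h3 i c f))
  obtain ⟨i, i1, i2, i3⟩ : ∃ i, 1 ≤ i ∧ i < n ∧ l ∈ T ((x i ⊔ x (i + 1)) ⊓ (y i ⊔ y (i + 1))).C := by
    by_contra k
    push Not at k
    exact (le_up H (Z := {l})).1 (h4 _ fun i c f => (le_up H).2 (by simpa using k i c f)) l rfl a
  have ex : ∀ u v : A s e, T u.C ≠ {l} → T v.C ≠ {l} → l ∈ T (u ⊔ v).C → ∃ j, j ≠ l ∧ Pj s j (u ⊔ v).C := fun u v c f k => by
    by_contra m
    push Not at m
    have := nice_of c f (fun j o => by_contra fun q => m j q (pl (u.pre.p j o))) (fun j o => by_contra fun q => m j q (pr (v.pre.p j o)))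
    rcases T_sup H k with q | q
    exacts [this.1 q, this.2 q]
  have lx : l ∈ T (x i ⊔ x (i + 1)).C := T_mono (inf_le_left : _ ⊓ (y i ⊔ y (i + 1)) ≤ _) i3
  have ly : l ∈ T (y i ⊔ y (i + 1)).C := T_mono (inf_le_right : (x i ⊔ x (i + 1)) ⊓ _ ≤ _) i3
  obtain ⟨j, j1, j2⟩ := ex _ _ (hl i i1 i2.le).1 (hl (i + 1) (by omega) i2).1 lx
  obtain ⟨k, k1, k2⟩ := ex _ _ (hl i i1 i2.le).2 (hl (i + 1) (by omega) i2).2 ly
  have e1 := H.s2 l
  have e2 := H.s1 (s l)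
  have e3 := s3 hn l
  have np : s (s l) ∉ T p.C := fun c => by
    rcases ((tr i i1 i2.le) _).1 c with f | f
    · exact k1 (nb i k i1 i2 (full2 H _ ((A.pre _).p l lx) (pl ((x i).pre.p _ f)) e1.symm e2 e3.symm k) k2)
    · exact j1 (nb i j i1 i2 j2 (full2 H _ ((A.pre _).p l ly) (pl ((y i).pre.p _ f)) e1.symm e2 e3.symm j))
  have nc : ∀ i, 1 ≤ i → i ≤ n → s (s l) ∈ T (x i).C → s (s l) ∈ T (y i).C → False := fun i c f g k => by
    rcases f.eq_or_lt with rfl | f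
    · obtain ⟨m, rfl⟩ : ∃ m, i = m + 1 := ⟨i - 1, by omega⟩
      exact e1 (nb m _ (by omega) (by omega) (pr ((A.pre _).p _ g)) (pr ((A.pre _).p _ k)))
    · exact e1 (nb i _ c f (pl ((A.pre _).p _ g)) (pl ((A.pre _).p _ k)))
  refine ⟨s (s l), fun i c f => ⟨fun g => ?_, fun g => ?_⟩, by_contra fun k => e1 ((not_good H S k).2 l (S.pre.p l a)).symm⟩
  · have : s (s l) ∈ T (x i).C := by simp [g]
    exact nc i c f this ((((tr i c f) _).2.1 this).resolve_left np)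
  · have : s (s l) ∈ T (y i).C := by simp [g]
    exact nc i c f ((((tr i c f) _).2.2 this).resolve_left np) this

theorem pickB (H : Hy s e d) {n : ℕ} (hn : 2 ≤ n) (hc : Fintype.card ι = n + 1) {p S : A s e} {x y : ℕ → A s e}
    (tr : ∀ i, 1 ≤ i → i ≤ n → Tri (T p.C) (T (x i).C) (T (y i).C)) (h3 : ∀ i, 1 ≤ i → i < n → (x i ⊔ x (i + 1)) ⊓ (y i ⊔ y (i + 1)) ≤ S)
    (hl : ∀ l, ∃ i, 1 ≤ i ∧ i ≤ n ∧ (T (x i).C = {l} ∨ T (y i).C = {l})) :
    ∃ l i0, Good (d l) S.C ∧ ¬ T p.C ⊆ {l} ∧ ∀ i, 1 ≤ i → i ≤ n → ¬ (T (x i).C ⊆ {l} ∧ T (y i).C ⊆ {l}) ∧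
      (T (x i).C ⊆ {l} ∨ T (y i).C ⊆ {l} → i = i0) := by
  choose f f1 f2 f3 using hl
  have two : ∀ j k, j ≠ k → f j = f k → T p.C = {j, k} ∧ ((T (x (f j)).C = {j} ∧ T (y (f j)).C = {k}) ∨ (T (x (f j)).C = {k} ∧ T (y (f j)).C = {j})) :=
    fun j k a b => by
      have c := f3 j
      have g := f3 k
      rw [← b] at g
      have t := tr (f j) (f1 j) (f2 j)
      have q : (T (x (f j)).C = {j} ∧ T (y (f j)).C = {k}) ∨ (T (x (f j)).C = {k} ∧ T (y (f j)).C = {j}) := by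
        rcases c with c | c <;> rcases g with g | g
        exacts [(a (Set.singleton_injective (c.symm.trans g))).elim, .inl ⟨c, g⟩, .inr ⟨g, c⟩, (a (Set.singleton_injective (c.symm.trans g))).elim]
      refine ⟨Set.ext fun m => ?_, q⟩
      have := t m
      rcases q with ⟨c, g⟩ | ⟨c, g⟩ <;> simp only [c, g, Set.mem_singleton_iff, Set.mem_insert_iff] at this ⊢ <;> grind
  obtain ⟨k, -, k', -, kk, fk⟩ := Finset.exists_ne_map_eq_of_card_lt_of_maps_to (s := Finset.univ) (t := Finset.Icc 1 n) (f := f)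
    (by simp [hc]) fun j _ => by simp [f1, f2]
  obtain ⟨tp, tq⟩ := two k k' kk fk
  have pe : ∀ {j j' : ι}, T p.C = {j, j'} → j = k ∨ j = k' := fun {j j'} a => by
    have : j ∈ T p.C := by simp [a]
    simpa [tp] using this
  have sj : ∀ i, 1 ≤ i → i ≤ n → i ≠ f k → ∃ j, j ≠ k ∧ j ≠ k' ∧ f j = i := fun i a b c => by
    obtain ⟨j, g, m⟩ := Finset.surj_on_of_inj_on_of_card_le (s := (Finset.univ.erase k).erase k') (t := (Finset.Icc 1 n).erase (f k))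
      (fun j _ => f j) (fun j g => by
        simp only [Finset.mem_erase, Finset.mem_univ, and_true, Finset.mem_Icc] at g ⊢
        refine ⟨fun m => ?_, f1 j, f2 j⟩
        rcases pe (two j k g.2 m).1 with o | o
        exacts [g.2 o, g.1 o]) (fun j j' g g' m => by_contra fun o => by
        simp only [Finset.mem_erase, Finset.mem_univ, and_true] at g
        rcases pe (two j j' o m).1 with o | o
        exacts [g.2 o, g.1 o]) (by
        rw [Finset.card_erase_of_mem (by simp [f1, f2]), Finset.card_erase_of_mem (by simp [kk.symm]), Finset.card_erase_of_mem (by simp)]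
        simp [hc]) i (by simp [a, b, c])
    simp only [Finset.mem_erase, Finset.mem_univ, and_true] at g
    exact ⟨j, g.2, g.1, m.symm⟩
  have st : ∀ j, j ≠ k → j ≠ k' → (T (x (f j)).C = {j} ∧ k ∈ T (y (f j)).C ∧ k' ∈ T (y (f j)).C ∧ j ∈ T (y (f j)).C) ∨
      (T (y (f j)).C = {j} ∧ k ∈ T (x (f j)).C ∧ k' ∈ T (x (f j)).C ∧ j ∈ T (x (f j)).C) := fun j a b => by
    have t := tr (f j) (f1 j) (f2 j)
    have t1 := t k
    have t2 := t k'
    have t3 := t j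
    rcases f3 j with c | c
    · left; simp only [c, tp, Set.mem_singleton_iff, Set.mem_insert_iff] at t1 t2 t3 ⊢; grind
    · right; simp only [c, tp, Set.mem_singleton_iff, Set.mem_insert_iff] at t1 t2 t3 ⊢; grind
  obtain ⟨l, l1, l2⟩ : ∃ l, l ≠ k ∧ l ≠ k' := by
    have := H.s1 k
    have := H.s2 k
    have := H.s1 (s k)
    by_cases a : s k = k'
    · exact ⟨s (s k), by grind⟩
    · exact ⟨s k, by grind⟩
  refine ⟨l, f l, ?_, fun a => l1 (a (by simp [tp] : k ∈ _)).symm, fun i a b => ?_⟩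
  · have fin : ∀ X Y : A s e, X ⊓ Y ≤ S → ∀ i, 1 ≤ i → i ≤ n → i ≠ f k → x i ≤ X → x (f k) ≤ X → y i ≤ Y → y (f k) ≤ Y → Good (d l) S.C :=
      fun X Y le i a b c x1 x2 y1 y2 => by
        obtain ⟨j, j1, j2, rfl⟩ := sj i a b c
        have kx : ∃ m, m ≠ l ∧ Pj s m X.C := by
          rcases tq with ⟨g, -⟩ | ⟨g, -⟩
          exacts [⟨k, l1.symm, ((A.pre _).p k (by simp [g])).mono x2⟩, ⟨k', l2.symm, ((A.pre _).p k' (by simp [g])).mono x2⟩]
        have ky : ∃ m, m ≠ l ∧ Pj s m Y.C := by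
          rcases tq with ⟨-, g⟩ | ⟨-, g⟩
          exacts [⟨k', l2.symm, ((A.pre _).p k' (by simp [g])).mono y2⟩, ⟨k, l1.symm, ((A.pre _).p k (by simp [g])).mono y2⟩]
        rcases st j j1 j2 with ⟨-, g1, g2, g3⟩ | ⟨-, g1, g2, g3⟩
        · obtain ⟨m, m1, m2⟩ := kx
          exact good_of H S ((pj_inf m2 ((full3 H _ ((A.pre _).p _ g1) ((A.pre _).p _ g2) ((A.pre _).p _ g3) kk j2.symm j1.symm m).mono y1)).mono le) m1
        · obtain ⟨m, m1, m2⟩ := ky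
          exact good_of H S ((pj_inf ((full3 H _ ((A.pre _).p _ g1) ((A.pre _).p _ g2) ((A.pre _).p _ g3) kk j2.symm j1.symm m).mono x1) m2).mono le) m1
    have := f1 k
    rcases (f2 k).eq_or_lt with a | a
    · obtain ⟨m, hm⟩ : ∃ m, f k = m + 1 := ⟨f k - 1, by omega⟩
      exact fin _ _ (h3 m (by omega) (by omega)) m (by omega) (by omega) (by omega) le_sup_left (hm ▸ le_sup_right) le_sup_left (hm ▸ le_sup_right)
    · exact fin _ _ (h3 (f k) this a) (f k + 1) (by omega) a (by omega) le_sup_right le_sup_left le_sup_right le_sup_left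
  · by_cases c : i = f k
    · subst c
      rcases tq with ⟨g, m⟩ | ⟨g, m⟩ <;> simp [g, m, l1.symm, l2.symm]
    · obtain ⟨j, j1, j2, rfl⟩ := sj i a b c
      rcases st j j1 j2 with ⟨g, g1, -⟩ | ⟨g, g1, -⟩
      · have : ¬ T (y (f j)).C ⊆ {l} := fun o => l1 (o g1).symm
        simp only [g, this, Set.singleton_subset_singleton, and_false, not_false_eq_true, or_false, true_and]
        rintro rfl; rfl
      · have : ¬ T (x (f j)).C ⊆ {l} := fun o => l1 (o g1).symm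
        simp only [g, this, Set.singleton_subset_singleton, false_and, not_false_eq_true, false_or, true_and]
        rintro rfl; rfl

theorem law (H : Hy s e d) {n : ℕ} (hn : 2 ≤ n) (hc : Fintype.card ι = n + 1) (s3 : 3 ≤ n → ∀ k, s (s (s k)) ≠ k) (a b : ℕ → A s e)
    (h : (Finset.Icc 1 (n - 1)).Nonempty) :
    a n ⊓ ((Finset.Icc 1 (n - 1)).inf' h (fun i => a i ⊔ b i) ⊔ b n) ≤
      a 1 ⊔ ((Finset.Icc 1 (n - 1)).sup' h (fun i => (a i ⊔ a (i + 1)) ⊓ (b i ⊔ b (i + 1))) ⊓ (b 1 ⊔ b n)) := by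
  haveI : Nonempty ι := Fintype.card_pos_iff.1 (by omega)
  intro z hz
  obtain ⟨xn, ⟨g1, g2, -⟩, g3⟩ := exists_gen H z
  have le := g2 _ hz
  obtain ⟨p, yn, p1, p2, p3, p4, p5, p6⟩ := split H g3 (le.trans inf_le_right)
  have : ∀ i, ∃ x y : A s e, 1 ≤ i → i ≤ n → x ≤ a i ∧ y ≤ b i ∧ Cy d x ∧ Cy d y ∧ Tri (T p.C) (T x.C) (T y.C) ∧ (i < n → p ≤ x ⊔ y) ∧
      (i = n → x = xn ∧ y = yn) := fun i => by
    by_cases m : 1 ≤ i ∧ i < n
    · obtain ⟨x, y, q1, q2, q3, q4, q5, q6⟩ := split H p3 (p1.trans (Finset.inf'_le (fun i => a i ⊔ b i) (Finset.mem_Icc.2 ⟨m.1, by omega⟩)))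
      exact ⟨x, y, fun _ _ => ⟨q1, q2, q3, q4, q5, fun _ => q6, fun _ => by omega⟩⟩
    · refine ⟨xn, yn, fun r t => ?_⟩
      obtain rfl : i = n := by omega
      exact ⟨le.trans inf_le_left, p2, g3, p4, fun j => by have := p5 j; tauto, fun o => by omega, fun _ => ⟨rfl, rfl⟩⟩
  choose x y m using this
  obtain ⟨e1, e2⟩ := (m n (by omega) le_rfl).2.2.2.2.2.2 rfl
  have tr := fun i r t => (m i r t).2.2.2.2.1
  set S := (Finset.Icc 1 (n - 1)).sup' h (fun i => (x i ⊔ x (i + 1)) ⊓ (y i ⊔ y (i + 1))) with hS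
  have h3 : ∀ i, 1 ≤ i → i < n → (x i ⊔ x (i + 1)) ⊓ (y i ⊔ y (i + 1)) ≤ S := fun i r t =>
    Finset.le_sup' (fun i => (x i ⊔ x (i + 1)) ⊓ (y i ⊔ y (i + 1))) (Finset.mem_Icc.2 ⟨r, by omega⟩)
  have h4 : ∀ w, (∀ i, 1 ≤ i → i < n → (x i ⊔ x (i + 1)) ⊓ (y i ⊔ y (i + 1)) ≤ w) → S ≤ w := fun w k =>
    Finset.sup'_le _ _ fun i r => k i (Finset.mem_Icc.1 r).1 (by have := (Finset.mem_Icc.1 r).2; omega)
  have main : x n ≤ x 1 ⊔ (S ⊓ (y 1 ⊔ y n)) := by
    have ch := fun l => chase H (l := l) (by omega : 1 ≤ n) p3 (fun i r t => (m i r t).2.2.1) (fun i r t => (m i r t).2.2.2.1)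
      (fun i r t => (m i r t.le).2.2.2.2.2.1 t) (by rw [e1, e2]; exact p6) h3
    by_cases c : ∃ l, ∀ i, 1 ≤ i → i ≤ n → T (x i).C ≠ {l} ∧ T (y i).C ≠ {l}
    · obtain ⟨l, c⟩ := c
      obtain ⟨l, c, g⟩ := pickA H hn s3 tr h3 h4 c
      refine ch l g (fun i r t => nice_of (c i r t.le).1 (c i r t.le).2) (fun r t => ?_) (fun i r t => nice_of (c i r t.le).1 (c _ (by omega) t).1)
        (fun i r t => nice_of (c i r t.le).2 (c _ (by omega) t).2) (nice_of (c 1 le_rfl (by omega)).2 (c n (by omega) le_rfl).2)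
        (nice_of (c 1 le_rfl (by omega)).1 (c n (by omega) le_rfl).1)
      have u : l ∉ T (y n).C := fun o => (c n (by omega) le_rfl).2 (t.antisymm (by simpa))
      refine ⟨fun o => (c n (by omega) le_rfl).1 (Set.eq_singleton_iff_unique_mem.2 ⟨((tr n (by omega) le_rfl l).1 o).resolve_right u, fun j v => ?_⟩), u⟩
      rcases (tr n (by omega) le_rfl j).2.1 v with w | w
      exacts [r w, t w]
    · obtain ⟨l, i0, g, c1, c⟩ := pickB H hn hc tr h3 fun l => by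
        by_contra k
        push Not at k
        exact c ⟨l, k⟩
      refine ch l g (fun i r t u v => ((c i r t.le).1 ⟨u, v⟩).elim) (fun u _ => (c1 u).elim) (fun i r t u v => ?_) (fun i r t u v => ?_)
        (fun u v => ?_) fun u v => ?_
      · have := (c i r t.le).2 (.inl u); have := (c (i + 1) (by omega) t).2 (.inl v); omega
      · have := (c i r t.le).2 (.inr u); have := (c (i + 1) (by omega) t).2 (.inr v); omega
      · have := (c 1 le_rfl (by omega)).2 (.inr u); have := (c n (by omega) le_rfl).2 (.inr v); omega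
      · have := (c 1 le_rfl (by omega)).2 (.inl u); have := (c n (by omega) le_rfl).2 (.inl v); omega
  refine (main.trans (sup_le_sup (m 1 le_rfl (by omega)).1 (inf_le_inf (h4 _ fun i r t => ?_)
    (sup_le_sup (m 1 le_rfl (by omega)).2.1 (m n (by omega) le_rfl).2.1)))) (e1 ▸ g1)
  exact (inf_le_inf (sup_le_sup (m i r t.le).1 (m _ (by omega) t).1) (sup_le_sup (m i r t.le).2.1 (m _ (by omega) t).2.1)).trans
    (Finset.le_sup' (fun i => (a i ⊔ a (i + 1)) ⊓ (b i ⊔ b (i + 1))) (Finset.mem_Icc.2 ⟨r, by omega⟩))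

end Pool.Agent.H.MP_5acbe8_al
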