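import Mathlib
import Pool.Agent.H.MP_5acbe8_al.C

namespace Pool.Agent.H.MP_5acbe8_al

section
variable {ι : Type} {s : ι → ι} {e d : ι → ι → ℚ} [Fintype ι] [DecidableEq ι]

def Q (H : Hy s e d) (k : ι) (c c' : ℚ) : A s e := ofInv
  { carrier := {z | (∀ t, t ≠ k → t ≠ s k → z.2 t = 0) ∧ z.1 (s k) = c * z.2 k + c' * z.2 (s k)}
    zero_mem' := by simp
    add_mem' := fun a b => ⟨fun t i j => by simp [a.1 t i j, b.1 t i j], by simp [a.2, b.2]; ring⟩
    smul_mem' := fun r z a => ⟨fun t i j => by simp [a.1 t i j], by simp [a.2]; ring⟩ }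
  (fun j ⟨z, a, b⟩ u f g => ⟨fun _ _ _ => rfl, by
    by_cases h : j = k
    · simpa [h] using g
    · have : j = s k := by_contra fun i => b (a.1 j h i)
      simpa [this] using f⟩) (fun _ D u a => ⟨fun _ _ _ => rfl, by simpa using .inr (by simpa using a.2)⟩) H.ee

theorem mem_Q (H : Hy s e d) {k : ι} {c c' : ℚ} {z : V ι} :
    z ∈ (Q H k c c').C ↔ (∀ t, t ≠ k → t ≠ s k → z.2 t = 0) ∧ z.1 (s k) = c * z.2 k + c' * z.2 (s k) := Iff.rfl

def Hh (H : Hy s e d) : A s e := ofInv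
  { carrier := {z | ∑ t, z.2 t = 0}
    zero_mem' := by simp
    add_mem' := fun {a b} (h : _ = _) (k : _ = _) => by simp [Finset.sum_add_distrib, h, k]
    smul_mem' := fun r z (h : _ = _) => by simp [← Finset.mul_sum, h] } (fun _ _ _ _ _ => by simp) (fun _ _ _ _ => by simp) H.ee

theorem mem_Hh (H : Hy s e d) {z : V ι} : z ∈ (Hh H).C ↔ ∑ t, z.2 t = 0 := Iff.rfl

theorem sum_Q (H : Hy s e d) {k : ι} {c c' : ℚ} {z : V ι} (h : z ∈ (Q H k c c').C) : ∑ t, z.2 t = z.2 k + z.2 (s k) :=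
  Fintype.sum_eq_add k (s k) (H.s1 k).symm fun t i => h.1 t i.1 i.2

theorem fail (H : Hy s e d) {n : ℕ} (hn : 1 ≤ n) (f : ℕ → ι) (f1 : ∀ i, f (i + 1) = s (f i)) (f2 : s (f (n + 1)) = f 1) (e1 : ∀ k, e k k = 1)
    (e2 : ∀ i, 1 ≤ i → i ≤ n → e (f i) (s (f i)) = 1) (e3 : e (f (n + 1)) (f 1) = -1) :
    ¬ (∀ (a b : ℕ → A s e) (h : (Finset.Icc 1 (n + 1 - 1)).Nonempty),
      a (n + 1) ⊓ ((Finset.Icc 1 (n + 1 - 1)).inf' h (fun i => a i ⊔ b i) ⊔ b (n + 1)) ≤
        a 1 ⊔ ((Finset.Icc 1 (n + 1 - 1)).sup' h (fun i => (a i ⊔ a (i + 1)) ⊓ (b i ⊔ b (i + 1))) ⊓ (b 1 ⊔ b (n + 1)))) := by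
  intro L
  choose a ha _ using fun k : ι => exists_gen H (0, Pi.single k 1)
  choose b hb _ using fun k : ι => exists_gen H (e k, Pi.single k 1)
  obtain ⟨p, hp, -⟩ := exists_gen H (1, 0)
  have ns : ∀ k : ι, (Pi.single k 1 : ι → ℚ) ≠ 0 := fun k h => by simpa using congrFun h k
  have ng : ∀ (w : A s e) z, z ∈ w.C → -z ∈ w.C := fun w z h => by simpa using w.pre.smul (-1) z h
  have h1 : ∀ k, p ≤ a k ⊔ b k := fun k => hp.2.1 _ (by
    have u := (le_sup_left : a k ≤ a k ⊔ b k) (ha k).1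
    have v := (le_sup_right : b k ≤ a k ⊔ b k) (hb k).1
    have := (a k ⊔ b k).good k ⟨_, v, by simp⟩ (e k, Pi.single k 1) (-(0, Pi.single k 1)) (by rwa [tau_ne _ (ns k)])
      (by rw [tau_ne _ (by simpa using ns k)]; exact ng _ _ u)
    rw [tau_0 _ (by simp)] at this
    simpa [H.ee] using this)
  have h2 : ∀ k, a k ≤ p ⊔ b k := fun k => (ha k).2.1 _ (by
    have u := (le_sup_left : p ≤ p ⊔ b k) hp.1
    have v := (le_sup_right : b k ≤ p ⊔ b k) (hb k).1
    have := (p ⊔ b k).good k ⟨_, v, by simp⟩ (e k, Pi.single k 1) (-(e k, 0)) (by rwa [tau_ne _ (ns k)])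
      (by rw [tau_0 _ (by simp)]; simpa [H.ee] using ng _ _ u)
    rw [tau_ne _ (by simpa using ns k)] at this
    simpa using this)
  have qa : ∀ k c, a (s k) ≤ Q H k c 0 := fun k c => (ha _).2.1 _ ⟨fun t _ i => by simp [i], by simp [(H.s1 k).symm]⟩
  have qa' : ∀ k, a k ≤ Q H k 0 0 := fun k => (ha _).2.1 _ ⟨fun t i _ => by simp [i], by simp⟩
  have qb : ∀ k c, b (s k) ≤ Q H k c 1 := fun k c => (hb _).2.1 _ ⟨fun t _ i => by simp [i], by simp [(H.s1 k).symm, e1]⟩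
  have qb' : ∀ k, b k ≤ Q H k (e k (s k)) 1 := fun k => (hb _).2.1 _ ⟨fun t i _ => by simp [i], by simp [H.s1 k]⟩
  have h := L (fun i => a (f i)) (fun i => b (f i)) ⟨1, by simp [hn]⟩
  have key : a (f (n + 1)) ≤ Q H (f (n + 1)) (-2) 0 := by
    refine ((le_inf le_rfl ((h2 _).trans (sup_le_sup_right (Finset.le_inf' _ _ fun i _ => h1 _) _))).trans h).trans (sup_le (f2 ▸ qa _ _) ?_)
    refine (inf_le_inf (Finset.sup'_le _ _ fun i hi => (?_ : _ ≤ Hh H)) (sup_le (f2 ▸ qb _ _) (qb' _))).trans fun z hz => ?_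
    · rw [f1]
      refine (inf_le_inf (sup_le (qa' _) (qa _ _)) (sup_le (qb' _) (qb _ _))).trans fun z hz => ?_
      obtain ⟨u, v⟩ := mem_inf.1 hz
      have := u.2.symm.trans v.2
      rw [e2 i (Finset.mem_Icc.1 hi).1 (Finset.mem_Icc.1 hi).2] at this
      rw [mem_Hh, sum_Q H u]
      linear_combination -this
    · obtain ⟨u, v⟩ := mem_inf.1 hz
      rw [mem_Hh, sum_Q H v] at u
      refine ⟨v.1, ?_⟩
      have := v.2
      rw [show e (f (n + 1)) (s (f (n + 1))) = -1 by rw [f2, e3]] at this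
      linear_combination this + u
  simpa using (key (ha _).1).2

end

noncomputable def ee (n : ℕ) (k t : ZMod (n + 1)) : ℚ := if k = 0 ∧ t = 1 then -1 else 1
noncomputable def dd (n : ℕ) (l t : ZMod (n + 1)) : ℚ := if 1 ≤ t.val ∧ t.val ≤ l.val then -1 else 1

theorem nz {n : ℕ} (m : ℕ) (h : 0 < m) (k : m ≤ n) : (m : ZMod (n + 1)) ≠ 0 := fun i =>
  absurd (Nat.le_of_dvd h ((ZMod.natCast_eq_zero_iff _ _).1 i)) (by omega)

theorem hy {n : ℕ} (hn : 2 ≤ n) : Hy (fun k : ZMod (n + 1) => k + 1) (ee n) (dd n) where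
  inj := add_left_injective 1
  s1 := fun k h => nz 1 one_pos (by omega : 1 ≤ n) (by simpa using h)
  s2 := fun k h => nz 2 two_pos hn (by push_cast; linear_combination h)
  ee := fun k => funext fun t => by simp only [ee, Pi.mul_apply]; split_ifs <;> simp
  dd := fun k => funext fun t => by simp only [dd, Pi.mul_apply]; split_ifs <;> simp
  rel := fun l k h => by
    haveI : Fact (1 < n + 1) := ⟨by omega⟩
    have a : k.val ≠ l.val := fun i => h (ZMod.val_injective _ i)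
    have b := ZMod.val_lt k
    have c := ZMod.val_lt l
    have f : (k + 1).val = (k.val + 1) % (n + 1) := by rw [ZMod.val_add, ZMod.val_one]
    have g : (k + 1).val = k.val + 1 ∨ (k + 1).val = 0 ∧ k.val = n := by
      rcases Nat.lt_or_ge (k.val + 1) (n + 1) with i | i
      · exact .inl (f.trans (Nat.mod_eq_of_lt i))
      · exact .inr ⟨by rw [f, show k.val + 1 = n + 1 by omega, Nat.mod_self], by omega⟩
    have z : k = 0 ↔ k.val = 0 := (ZMod.val_eq_zero k).symm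
    have o : ¬ (k = 0 ∧ k = 1) := fun i => zero_ne_one (i.1.symm.trans i.2)
    simp only [ee, if_neg o]
    simp only [dd, add_eq_right, and_self, z]
    split_ifs <;> first | omega | simp

theorem big {n : ℕ} (hn : 2 ≤ n) : ∃ (α : Type) (inst : Lattice α),
    (∀ (a b : ℕ → α) (h : (Finset.Icc 1 (n - 1)).Nonempty),
      a n ⊓ ((Finset.Icc 1 (n - 1)).inf' h (fun i => a i ⊔ b i) ⊔ b n) ≤
        a 1 ⊔ ((Finset.Icc 1 (n - 1)).sup' h (fun i => (a i ⊔ a (i + 1)) ⊓ (b i ⊔ b (i + 1))) ⊓ (b 1 ⊔ b n))) ∧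
    ¬ (∀ (a b : ℕ → α) (h : (Finset.Icc 1 (n + 1 - 1)).Nonempty),
      a (n + 1) ⊓ ((Finset.Icc 1 (n + 1 - 1)).inf' h (fun i => a i ⊔ b i) ⊔ b (n + 1)) ≤
        a 1 ⊔ ((Finset.Icc 1 (n + 1 - 1)).sup' h (fun i => (a i ⊔ a (i + 1)) ⊓ (b i ⊔ b (i + 1))) ⊓ (b 1 ⊔ b (n + 1)))) := by
  haveI : Fact (1 < n + 1) := ⟨by omega⟩
  refine ⟨A (fun k : ZMod (n + 1) => k + 1) (ee n), inferInstance, law (hy hn) hn (ZMod.card _) fun h k i => nz 3 three_pos h (by
    push_cast; linear_combination i), fail (hy hn) (by omega) (fun i => (i : ZMod (n + 1))) (fun i => by push_cast; rfl) (by simp)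
    (fun k => if_neg fun i => zero_ne_one (i.1.symm.trans i.2)) (fun i a b => if_neg fun j => nz i a b j.1) (if_pos ⟨by simp, by simp⟩)⟩

inductive P5 | o | a | b | c | i
  deriving DecidableEq, Fintype

def P5.le (x y : P5) : Prop := x = y ∨ x = .o ∨ y = .i ∨ (x = .a ∧ y = .b)

instance : DecidableRel P5.le := fun x y => by unfold P5.le; infer_instance

instance : Lattice P5 where
  le := P5.le
  le_refl := by decide
  le_trans := by decide
  le_antisymm := by decide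
  sup x y := if x.le y then y else if y.le x then x else .i
  inf x y := if x.le y then x else if y.le x then y else .o
  le_sup_left := by decide
  le_sup_right := by decide
  sup_le := by decide
  inf_le_left := by decide
  inf_le_right := by decide
  le_inf := by decide

theorem small : ¬ (P5.b ⊓ (P5.a ⊔ P5.c ⊔ P5.c) ≤ P5.a ⊔ ((P5.a ⊔ P5.b) ⊓ (P5.c ⊔ P5.c) ⊓ (P5.c ⊔ P5.c))) :=
  show ¬ P5.le _ _ by decide

end Pool.Agent.H.MP_5acbe8_al
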